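import Pool.Agent.Helper10.PC.Pair

/-!
# The standard conjecture C and smooth moduli spaces of planar configurations of the same dimension

Let `F` be a prime field (only `F = ℚ` is interesting, by Katz and Messing), `k` its algebraic closure, and
let `Z` be a smooth projective variety over `k`, of dimension `d`. The conjecture `C(Z)` says that the
Künneth components `π_i` of the diagonal of `Z × Z` are algebraic. The variety `Z` is a union of connected
components of `S_k` for a smooth projective scheme `S` over `F` of dimension `d` (take a model over a
finite extension of `F`). We fix `Z` and **one** index `i`. For a smooth projective scheme `Y` over `F` let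
`A(Y)` be the space of the algebraic classes of the **one** codimension `d` on `Z × Y_k` (rational
coefficients), and `B(Y)` the space of the sums of classes `α` and `β ∘ π_i`, `α` and `β` in `A(Y)`. Both
are additive functors of the Chow motive of `Y_k` (for correspondences of degree zero), and `A ⊆ B`; they
are equal if and only if the classes `α ∘ π_i` are algebraic for all `α` in `A(Y)` (`Stable`).

For a separated scheme `X` of finite type over `F` let `W(X)` be the weight complex of `X_k` (Gillet,
Soulé, Bondarko; a bounded complex of effective Chow motives with rational coefficients, for the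
cohomology with compact supports; `W(X) = h(X_k)` for smooth projective `X`), and put
`A^j(X) = H^j(A(W(X)))` and `B^j(X) = H^j(B(W(X)))`. `BijAll C X` says that the maps `A^j(X) → B^j(X)` are
isomorphisms for all `j`. The facts which are used: isomorphism invariance, `W(∅) = 0`, long exact sequences
of closed-open pairs (`IsCutPair`; neither Tate twists, nor affine bundles, nor products with `𝔾_m`), and
that `W(X)` consists of direct factors of motives of smooth projective schemes whose dimension is at most
the dimension of `X` (`AllGen`, `BijDim`).

A matroid `M` of rank three on the set `Fin 4 ⊕ Fin n` is **framed** if any three of the four elements of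
`Fin 4` form a base; it is **simple** if any two elements are independent. Let `modS F M` be the moduli
space over `F` of the configurations of `n + 4` different points in the projective plane in which exactly
the triples prescribed by `M` are collinear, modulo projective transformations: the four points of `Fin 4`
are the points of `e_1, e_2, e_3, e_1 + e_2 + e_3`, and the other ones have normalised coordinates.

**Theorem.** (1) For each smooth projective scheme `S` over `F` there is a finite list `L` of simple
matroids of rank three, whose moduli spaces are integral, smooth, and of dimension at most `dim S`, such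
that for all `Z` (as above) and all `i` the following statements are equivalent: the Künneth component
`π_i` of `Z` is algebraic; the maps `A^j(X) → B^j(X)` are isomorphisms for all separated schemes `X` of
finite type over `F`; they are isomorphisms for the finitely many moduli spaces `X = modS F M`, `M` in `L`.

(2) For each `e` the following are equivalent: the conjecture `C(Z)` is true for all smooth projective
varieties `Z` over `k` of dimension at most `e`; the maps (for all these `Z` and all `i`) are isomorphisms
for all separated schemes `X` of finite type over `F` of dimension at most `e`; they are isomorphisms for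
the integral smooth moduli spaces `X = modS F M` of dimension at most `e`, for all simple framed matroids
`M` of rank three.

In (2) one takes for `C` the product of the comparison maps for all `Z` and `i`, and the family of the
`π_i` of all `Z`.

The earlier reductions of the conjecture C (to cubic hypersurfaces, graph hypersurfaces) lead to singular
schemes of larger dimension, and they need all codimensions, Tate twists, affine bundles and products with
`𝔾_m`. In the background is the theorem `Pool.Agent.Helper13.RM.config_list` on arbitrary properties of
schemes that are closed under cutting.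
-/

set_option autoImplicit false

open AlgebraicGeometry Pool.Agent.Y116.UV Pool.Agent.Z125.UN Pool.Agent.Q193.LT
  Pool.Agent.Helper3.GU Pool.Agent.Helper13.RM Pool.Agent.Helper10.PC

universe w u

namespace Pool.Agent.Results.MP_4ca46c_ag.PlanarConfigurations

/-- Correspondences of degree zero from a smooth projective variety `Z` over `k` of dimension `d`, a union
of connected components of `S_k`, to the schemes `Y_k`, for schemes `Y` over `F`, and one Künneth component
of the diagonal of `Z`. -/
structure OneData (F : Type) [Field F] (S : Sch F) where
  /-- the cohomology of `Z × Y_k` -/
  E : Sch F → ModuleCat.{w} ℚ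
  /-- the algebraic classes of codimension `d` on `Z × Y_k` (rational coefficients) -/
  alg : ∀ Y : Sch F, Submodule ℚ (E Y)
  /-- the class of the graph of the inclusion of `Z` in `S_k` -/
  diag : E S
  /-- the composition `α ∘ β` of a class `α` on `Z × Y_k` with the part on `Z × Z` of a class `β` on
  `Z × S_k` -/
  comp : ∀ Y, E Y →ₗ[ℚ] E S →ₗ[ℚ] E Y
  /-- a Künneth component `π_i` of the diagonal, a class on `Z × Z ⊆ Z × S_k` -/
  pr : E S

variable {F : Type} [Field F] {S : Sch F}

/-- The standard properties: the class of a graph is algebraic, compositions of algebraic correspondences
are algebraic, and `π_i` is a class on `Z × Z`. -/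
structure IsOne (D : OneData.{w} F S) : Prop where
  diag_mem : D.diag ∈ D.alg S
  comp_mem : ∀ Y, SmoothProj Y → ∀ α ∈ D.alg Y, ∀ β ∈ D.alg S, D.comp Y α β ∈ D.alg Y
  square : D.comp S D.diag D.pr = D.pr

/-- The Künneth component `π_i` of the diagonal of `Z` is algebraic. -/
def Algebraic (D : OneData.{w} F S) : Prop := D.pr ∈ D.alg S

/-- The classes `α ∘ π_i` are algebraic for all algebraic classes `α` of codimension `d` on
`Z × Y_k`. -/
def Stable (D : OneData.{w} F S) (Y : Sch F) : Prop :=
  ∀ α ∈ D.alg Y, D.comp Y α D.pr ∈ D.alg Y

lemma algebraic_of_stable {D : OneData.{w} F S} (hD : IsOne D) (h : Stable D S) : Algebraic D := by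
  have h1 := h D.diag hD.diag_mem
  rwa [hD.square] at h1

lemma stable_of_algebraic {D : OneData.{w} F S} (hD : IsOne D) (h : Algebraic D) (Y : Sch F)
    (hY : SmoothProj Y) : Stable D Y := fun α hα => hD.comp_mem Y hY α hα _ h

/-- **The conjecture C and smooth moduli spaces of planar configurations.** See the explanations
above. -/
theorem result {F : Type} [Field F] [PerfectField F] (hF : Frac F) :
    (∀ {S : Sch F}, SmoothProj S →
      ∃ L : List Mat, (∀ M ∈ L, SmoothMod F (topologicalKrullDim S.left) M.2) ∧
        ∀ (D : OneData.{w} F S) (C : PairData.{w} F ℤ ℚ) {δ : ℤ ≃ ℤ}, IsOne D → IsCutPair C δ →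
          AllGen C → (∀ Y, SmoothProj Y → (BijAll C Y ↔ Stable D Y)) →
          List.TFAE [Algebraic D,
            ∀ X : Sch F, FT True X → BijAll C X,
            ∀ M ∈ L, BijAll C (modS F M.2)]) ∧
    ∀ (e : ℕ) {I : Type u} (S : I → Sch F), (∀ a, SmoothProj (S a)) → (∀ a, DimAt (S a) e) →
      ∀ (D : ∀ a, OneData.{w} F (S a)) {ι : Type} (C : PairData.{w} F ι ℚ) {δ : ι ≃ ι},
        (∀ a, IsOne (D a)) → IsCutPair C δ → BijDim C →
        (∀ Y, SmoothProj Y → (BijAll C Y ↔ ∀ a, Stable (D a) Y)) →
        List.TFAE [∀ a, Algebraic (D a),
          ∀ X : Sch F, FT True X → DimAt X e → BijAll C X,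
          ∀ (m : ℕ) (M : Matroid (Fin 4 ⊕ Fin m)), SmoothMod F e M → BijAll C (modS F M)] := by
  refine ⟨fun {S} hS => ?_, fun e {I} S hS dS D {ι} C {δ} hD hC gC bij => ?_⟩
  · obtain ⟨L, hL, h⟩ := list_tfae hF S hS
    exact ⟨L, hL, fun D C {δ} hD hC hg bij => h C hC hg (Algebraic D)
      (fun h => algebraic_of_stable hD ((bij S hS).mp h))
      fun h Y hY => (bij Y hY).mpr (stable_of_algebraic hD h Y hY)⟩
  · exact family_tfae hF hC gC e S hS dS (fun a => Algebraic (D a)) (fun a => Stable (D a)) bij
      (fun a h => algebraic_of_stable (hD a) h) fun a h Y hY => stable_of_algebraic (hD a) h Y hY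

end Pool.Agent.Results.MP_4ca46c_ag.PlanarConfigurations
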