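import Pool.Agent.Helper3.GM.App

/-!
# The standard conjecture C for one variety and finitely many varieties of matrices

Let `F` be a prime field (only `F = ℚ` is interesting, by Katz and Messing), `k` its algebraic closure, and
let `Z` be **one** smooth projective variety over `k`, of dimension `d`. The conjecture `C(Z)` says that
the Künneth components `π_i` of the diagonal of `Z × Z` are algebraic. The variety `Z` is a union of
connected components of `S_k` for a smooth projective scheme `S` over `F` (take a model over a finite
extension of `F`). For a smooth projective scheme `Y` over `F` let `A^m(Y)` be the space of the algebraic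
classes of codimension `m` on `Z × Y_k` (rational coefficients), and `B^m(Y)` the space of the sums of
classes `α ∘ π_i`, `α` in `A^m(Y)`: these are the sums of the Künneth components, with respect to `Z`, of
algebraic classes. Both are additive functors of the Chow motive of `Y_k`, and `A^m ⊆ B^m`; they are equal
for all `m` if and only if the Künneth components with respect to `Z` of the algebraic classes on `Z × Y_k`
are algebraic (`Stable`).

For a separated scheme `X` of finite type over `F` let `W(X)` be the weight complex of `X_k` (Gillet,
Soulé, Bondarko; a complex of Chow motives over `k` with rational coefficients, for the cohomology with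
compact supports; `W(X) = h(X_k)` for smooth projective `X`), and put `A^{m,i}(X) = H^i(A^m(W(X)))` and
`B^{m,i}(X) = H^i(B^m(W(X)))`. `BijAll C X` says that the maps `A^{m,i}(X) → B^{m,i}(X)` are isomorphisms
for all `m` and `i`.

For a set `T` of positions in the `n × n` matrices with at most three positions in each row and in each
column (`Sparse`) let `detS` be the determinant of the generic matrix with zeros outside of `T`. (With two
positions instead of three it would be a product of monomials and binomials.)

**Theorem.** There is a finite list `L` of sets `T` of positions, with at most three positions in each row and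
in each column, which depends only on `S` (not on
the prime `ℓ`, nor on the component `Z`) such that the following statements are equivalent.

* The conjecture `C(Z)` is true.
* The maps are isomorphisms for all separated schemes `X` of finite type over `F`.
* They are isomorphisms for the schemes of the invertible matrices with zeros outside of `T`, `T` in `L`.
* They are isomorphisms for the schemes of the matrices of determinant one with zeros outside of `T`, `T` in `L`.
* They are isomorphisms for the schemes of the matrices of determinant zero with zeros outside of `T`, `T` in `L`.
* They are isomorphisms for the schemes of the invertible matrices with zeros outside of `T` and invertible entries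
  at all positions in `T`, `T` in `L`.

The data (`OneData`, `IsOne`) are those of the theorem on finitely many cubic hypersurfaces
`T(x, y, z) = 1` of the library.
-/

set_option autoImplicit false

open AlgebraicGeometry Pool.Agent.Y116.UV Pool.Agent.Z125.UN Pool.Agent.Q193.LT
  Pool.Agent.Helper3.GU Pool.Agent.Helper3.GM

universe w

namespace Pool.Agent.Results.MP_4ca46c_ag.SparseMatrices

/-- Correspondences from a smooth projective variety `Z` over `k`, a union of connected components of
`S_k`, to the schemes `Y_k`, for schemes `Y` over `F`. -/
structure OneData (F : Type) [Field F] (S : Sch F) where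
  /-- the cohomology of `Z × Y_k` -/
  E : Sch F → ModuleCat.{w} ℚ
  /-- the algebraic classes of codimension `m` on `Z × Y_k` (rational coefficients) -/
  alg : ∀ (_ : ℤ) (Y : Sch F), Submodule ℚ (E Y)
  /-- the class of the graph of the inclusion of `Z` in `S_k` -/
  diag : E S
  /-- the composition `α ∘ β` of a class `α` on `Z × Y_k` with the part on `Z × Z` of a class `β` on
  `Z × S_k` -/
  comp : ∀ Y, E Y →ₗ[ℚ] E S →ₗ[ℚ] E Y
  /-- the Künneth components of the diagonal, classes on `Z × Z ⊆ Z × S_k` -/
  pr : ℤ → E S

variable {F : Type} [Field F] {S : Sch F}

/-- The standard properties, `d` the dimension of `Z`: the class of a graph is algebraic, compositions of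
algebraic correspondences are algebraic, and the Künneth components are classes on `Z × Z`. -/
structure IsOne (D : OneData.{w} F S) (d : ℤ) : Prop where
  diag_mem : D.diag ∈ D.alg d S
  comp_mem : ∀ Y, SmoothProj Y → ∀ n m : ℤ, ∀ α ∈ D.alg n Y, ∀ β ∈ D.alg m S,
    D.comp Y α β ∈ D.alg (n + m - d) Y
  square : ∀ i, D.comp S D.diag (D.pr i) = D.pr i

/-- The conjecture `C(Z)`: the Künneth components of the diagonal are algebraic. -/
def ConjC (D : OneData.{w} F S) (d : ℤ) : Prop := ∀ i, D.pr i ∈ D.alg d S

/-- The Künneth components, with respect to `Z`, of the algebraic classes on `Z × Y_k` are algebraic. -/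
def Stable (D : OneData.{w} F S) (Y : Sch F) : Prop :=
  ∀ m i, ∀ α ∈ D.alg m Y, D.comp Y α (D.pr i) ∈ D.alg m Y

/-- **The conjecture C for one variety and finitely many varieties of matrices.** See the explanations
above. -/
theorem result {F : Type} [Field F] [PerfectField F] (hF : Frac F) {S : Sch F} (hS : SmoothProj S) :
    ∃ L : List (Σ n : ℕ, Finset (Fin n × Fin n)), (∀ T ∈ L, Sparse T.2) ∧
      ∀ (d : ℤ) (D : OneData.{w} F S) (C : PairData.{w} F (ℤ × ℤ) ℚ), IsOne D d → IsWeightPair C →
        WeightGen C → BijAll C (aff F F) → (∀ Y, SmoothProj Y → (BijAll C Y ↔ Stable D Y)) →
        List.TFAE [ConjC D d,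
          ∀ X : Sch F, FT True X → BijAll C X,
          ∀ T ∈ L, BijAll C (invS F T.2),
          ∀ T ∈ L, BijAll C (oneS F T.2),
          ∀ T ∈ L, BijAll C (zeroS F T.2),
          ∀ T ∈ L, BijAll C (torS F T.2)] := by
  obtain ⟨L, hL, h⟩ := mat_list_pair hF S hS
  refine ⟨L, hL, fun d D C hD hC hg h1 bij => h C hg hC h1 (ConjC D d) (fun h i => ?_)
    fun h Y hY => (bij Y hY).mpr fun m i α hα => ?_⟩
  · have h1 := (bij S hS).mp h d i D.diag hD.diag_mem
    rwa [hD.square] at h1
  · have h1 := hD.comp_mem Y hY m d α hα _ (h i)
    rwa [add_sub_cancel_right] at h1

end Pool.Agent.Results.MP_4ca46c_ag.SparseMatrices
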